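import Pool.Agent.AT8.Stmts1
import Pool.Agent.Helper17_AT3.RSV
import Pool.Agent.Helper19_K9.OMG
import Pool.Agent.Helper34_K9.INX

/-!
# Squad AT8, module OMI: the central characters at the sum of the conjugates of `i`
-/

open scoped BigOperators

noncomputable section

namespace Pool.Agent.PP.T8.H17

open Pool.Agent.Helper51_AWC Pool.Agent.Helper79_WRA Pool.Agent.PP Pool.Agent.PP.KF
open Pool.Agent.PP.K9 Pool.Agent.PP.K9.H97 Pool.Agent.PP.H75 Pool.Agent.PP.T3 Pool.Agent.PP.T2
open Pool.Agent.PP.T8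

section core

variable {F G : Type} [Field F] [Group G] [Finite G]

theorem sum_any {α A : Type} [AddCommMonoid A] (i₁ i₂ : Fintype α) (f g : α → A)
    (h : ∀ x, f x = g x) :
    @Finset.sum α A _ (@Finset.univ α i₁) f = @Finset.sum α A _ (@Finset.univ α i₂) g := by
  have : i₁ = i₂ := Subsingleton.elim _ _
  subst this
  exact Finset.sum_congr rfl fun x _ => h x

/-- a sum over cosets in stages -/
theorem coset_sum {A : Type} [AddCommMonoid A] {V X : Subgroup G} (hVX : V ≤ X) (H : G → A)
    (hH : ∀ g, ∀ v ∈ V, H (g * v) = H g) [Fintype (G ⧸ V)] [Fintype (G ⧸ X)]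
    [Fintype (X ⧸ V.subgroupOf X)] :
    ∑ q : G ⧸ V, H q.out = ∑ p : G ⧸ X, ∑ x : X ⧸ V.subgroupOf X, H (p.out * (x.out : X)) := by
  rw [← Equiv.sum_comp (Subgroup.quotientEquivProdOfLE hVX).symm, Fintype.sum_prod_type]
  refine Finset.sum_congr rfl fun p _ => Finset.sum_congr rfl fun x _ => ?_
  have h1 : (Subgroup.quotientEquivProdOfLE hVX).symm (p, x) =
      ((p.out * ((x.out : X) : G) : G) : G ⧸ V) := by
    conv_lhs => rw [← QuotientGroup.out_eq' x]
    rfl
  rw [h1]
  obtain ⟨v, hv⟩ := QuotientGroup.mk_out_eq_mul V (p.out * ((x.out : X) : G))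
  rw [hv]
  exact hH _ v v.2

theorem norm_of_conj {V : Subgroup G} {t : G} (h : ∀ v ∈ V, t⁻¹ * v * t ∈ V) :
    t ∈ Subgroup.normalizer (V : Set G) := by
  have h1 : V.map (MulAut.conj t⁻¹).toMonoidHom = V := by
    apply Subgroup.eq_of_le_of_card_ge
    · rintro _ ⟨v, hv, rfl⟩
      have := h v hv
      change t⁻¹ * v * t⁻¹⁻¹ ∈ V
      rwa [inv_inv]
    · exact (Nat.card_congr (V.equivMapOfInjective (MulAut.conj t⁻¹).toMonoidHom
        (MulAut.conj t⁻¹).injective).toEquiv).le
  rw [Subgroup.mem_normalizer_iff]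
  intro v
  constructor
  · intro hv
    rw [← h1] at hv
    obtain ⟨w, hw, hwv⟩ := hv
    have h2 : t⁻¹ * w * t⁻¹⁻¹ = v := hwv
    have h3 : t * v * t⁻¹ = w := by
      rw [← h2]
      group
    rw [h3]
    exact hw
  · intro hv
    have h2 := h _ hv
    rwa [show t⁻¹ * (t * v * t⁻¹) * t = v by group] at h2

theorem cj_fsum {ι : Type} (s : Finset ι) (f : ι → G → F) (t : G) :
    cj t (∑ i ∈ s, f i) = ∑ i ∈ s, cj t (f i) := by
  funext x
  rw [cj, Finset.sum_apply, Finset.sum_apply]
  rfl

/-- the Brauer image of the sum of the conjugates -/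
theorem core_om {ℓ : ℕ} (hF : GoodF ℓ F) {V : Subgroup G} (hV : IsPGroup ℓ V)
    (hab : ∀ a ∈ V, ∀ b ∈ V, a * b = b * a) {γ : G → F}
    (hγ : Bx (Subgroup.centralizer (V : Set G)) γ) {a : G → F} (haV : ∀ v ∈ V, cj v a = a)
    (haγ : mulF (br V a) γ = br V a) [Fintype (G ⧸ Subgroup.centralizer (V : Set G))]
    [Fintype ((Subgroup.centralizer (V : Set G)) ⧸ V.subgroupOf (Subgroup.centralizer (V : Set G)))]
    [DecidablePred fun g : G => g ∈ Tg V γ] :
    mulF (br V (tsm V a)) γ =
      ∑ p : G ⧸ Subgroup.centralizer (V : Set G), if p.out ∈ Tg V γ then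
        cj p.out (∑ x : (Subgroup.centralizer (V : Set G)) ⧸
          V.subgroupOf (Subgroup.centralizer (V : Set G)),
            cj ((x.out : Subgroup.centralizer (V : Set G)) : G) (br V a)) else 0 := by
  classical
  set X := Subgroup.centralizer (V : Set G) with hX
  set N := Subgroup.normalizer (V : Set G) with hN
  have hXN : X ≤ N := by
    intro g hg
    rw [hN, Subgroup.mem_normalizer_iff]
    intro v
    have h1 := Subgroup.mem_centralizer_iff.1 hg
    constructor
    · intro hv
      rw [← h1 v hv, mul_inv_cancel_right]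
      exact hv
    · intro hv
      have h2 := h1 _ hv
      have h3 : g * v = g * (g * v * g⁻¹) := by
        rw [← h2]
        group
      rw [mul_left_cancel h3]
      exact hv
  have hNX : N ≤ Subgroup.normalizer (X : Set G) := by
    intro g hg
    rw [Subgroup.mem_normalizer_iff]
    intro x
    constructor
    · exact H34.conj_cent hg
    · intro h
      have := H34.conj_cent (inv_mem hg) h
      have e : g⁻¹ * (g * x * g⁻¹) * g⁻¹⁻¹ = x := by group
      rwa [e] at this
  have hVX : V ≤ X := by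
    intro v hv
    rw [hX, Subgroup.mem_centralizer_iff]
    intro x hx
    exact hab x hx v hv
  have hVN : V ≤ N := hVX.trans hXN
  have hXT : X ≤ Tg V γ := by
    intro x hx
    exact ⟨hXN hx, (cj_eq_iff _ _).1 (hγ.ix.inv hx)⟩
  have := Fintype.ofFinite (G ⧸ V)
  set a' := br V a with ha'
  have hinj : ∀ t ∈ N, ∀ x, t⁻¹ * x * t ∈ X ↔ x ∈ X := fun t ht x => conj_mem_iff (hNX ht) x
  have hcja : ∀ t ∈ N, ∀ g ∈ X, cj t a g = cj t a' g := by
    intro t ht g hg
    rw [cj, cj, ha', H66.br_of_mem ((hinj t ht g).2 hg)]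
  have hQN : ∀ q : G ⧸ V, q ∈ QN N V ↔ q.out ∈ N := by
    intro q
    constructor
    · rintro ⟨t, ht, rfl⟩
      obtain ⟨v, hv⟩ := QuotientGroup.mk_out_eq_mul V t
      rw [hv]
      exact N.mul_mem ht (hVN v.2)
    · intro h
      exact ⟨q.out, h, QuotientGroup.out_eq' q⟩
  -- the Brauer image
  have hB : br V (tsm V a) = ∑ q : G ⧸ V, if q.out ∈ N then cj q.out a' else 0 := by
    funext g
    rw [Finset.sum_apply]
    by_cases hg : g ∈ X
    · rw [H66.br_of_mem hg, tsm_br hF hV le_rfl haV
        (fun t ht g _ _ => ⟨t, norm_of_conj ht, rfl⟩) hg, finsum_eq_sum_of_fintype]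
      refine Finset.sum_congr rfl fun q _ => ?_
      rw [finsum_eq_if]
      by_cases hq : q.out ∈ N
      · rw [if_pos ((hQN q).2 hq), if_pos hq, hcja _ hq g hg]
      · rw [if_neg (fun h => hq ((hQN q).1 h)), if_neg hq]
        rfl
    · rw [H66.br_of_not_mem hg]
      symm
      apply Finset.sum_eq_zero
      intro q _
      by_cases hq : q.out ∈ N
      · rw [if_pos hq, cj, ha', H66.br_of_not_mem (fun h => hg ((hinj _ hq g).1 h))]
      · rw [if_neg hq]
        rfl
  -- multiplication with `γ`
  have hS : mulF (br V (tsm V a)) γ = ∑ q : G ⧸ V, if q.out ∈ Tg V γ then cj q.out a' else 0 := by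
    apply ma_injective
    rw [ma_mul, hB, ma_sum, Finset.sum_mul, ma_sum]
    refine Finset.sum_congr rfl fun q _ => ?_
    by_cases hq : q.out ∈ N
    · rw [if_pos hq]
      have h1 := congrArg (cj q.out) haγ
      rw [cj_mulF] at h1
      by_cases hs : cj q.out γ = γ
      · rw [if_pos (show q.out ∈ Tg V γ from ⟨hq, (cj_eq_iff _ _).1 hs⟩), ← ma_mul]
        rw [hs] at h1
        rw [h1]
      · rw [if_neg (fun h => hs ((cj_eq_iff _ _).2 h.2)), ma_zero, ← h1, ma_mul, mul_assoc,
          ← ma_mul (cj q.out γ)]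
        rcases (hγ.cj (hNX hq)).dich hγ with h2 | h2
        · exact absurd h2 hs
        · rw [h2, ma_zero, mul_zero]
    · rw [if_neg hq, if_neg (fun h => hq h.1), ma_zero, zero_mul]
  have haV' : ∀ v ∈ V, cj v a' = a' := by
    intro v hv
    funext x
    by_cases hx : x ∈ X
    · have h1 : v⁻¹ * x * v = x := by
        have := Subgroup.mem_centralizer_iff.1 hx v hv
        rw [mul_assoc, ← this, inv_mul_cancel_left]
      rw [cj, h1]
    · rw [cj, ha', H66.br_of_not_mem hx,
        H66.br_of_not_mem (fun h => hx ((hinj v (hVN hv) x).1 h))]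
  rw [hS, coset_sum hVX (fun t => if t ∈ Tg V γ then cj t a' else 0)]
  · refine sum_any _ _ _ _ fun p => ?_
    by_cases hp : p.out ∈ Tg V γ
    · rw [if_pos hp, cj_fsum]
      refine sum_any _ _ _ _ fun x => ?_
      rw [if_pos ((Tg V γ).mul_mem hp (hXT x.out.2)), cj_cj]
    · rw [if_neg hp]
      apply Finset.sum_eq_zero
      intro x _
      rw [if_neg]
      intro h
      apply hp
      have := (Tg V γ).mul_mem h ((Tg V γ).inv_mem (hXT x.out.2))
      rwa [mul_inv_cancel_right] at this
  · intro g v hv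
    by_cases hg : g ∈ Tg V γ
    · rw [if_pos hg, if_pos ((Tg V γ).mul_mem hg (hXT (hVX hv))), ← cj_cj, haV' v hv]
    · rw [if_neg hg, if_neg]
      intro h
      apply hg
      have := (Tg V γ).mul_mem h ((Tg V γ).inv_mem (hXT (hVX hv)))
      rwa [mul_inv_cancel_right] at this

end core

attribute [local instance] Ideal.Quotient.field

theorem isChar_sum {F H : Type} [Field F] [Group H] [Finite H] {lam : (H → F) → F}
    (h : H50.IsChar lam) {ι : Type} (s : Finset ι) (f : ι → H → F) (hf : ∀ i ∈ s, IsCl (f i)) :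
    IsCl (∑ i ∈ s, f i) ∧ lam (∑ i ∈ s, f i) = ∑ i ∈ s, lam (f i) := by
  classical
  have hz : IsCl (0 : H → F) := fun x y => rfl
  induction s using Finset.induction_on with
  | empty => exact ⟨by rw [Finset.sum_empty]; exact hz, by
      rw [Finset.sum_empty, Finset.sum_empty, h.zero]⟩
  | insert i s hi ih =>
    obtain ⟨h1, h2⟩ := ih fun j hj => hf j (Finset.mem_insert_of_mem hj)
    have h3 := hf i (Finset.mem_insert_self _ _)
    have hn : IsCl (-(∑ j ∈ s, f j)) := fun x y => congrArg Neg.neg (h1 x y)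
    have e1 : lam (-(∑ j ∈ s, f j)) = -lam (∑ j ∈ s, f j) := by
      have := h.sub 0 _ hz h1
      rwa [zero_sub, h.zero, zero_sub] at this
    have e2 := h.sub _ _ h3 hn
    rw [sub_neg_eq_add, e1, sub_neg_eq_add] at e2
    rw [Finset.sum_insert hi, Finset.sum_insert hi]
    exact ⟨fun x y => congrArg₂ (· + ·) (h3 x y) (h1 x y), by rw [e2, h2]⟩

open Classical in
theorem omi : OmiStmt := by
  intro ℓ _ M _ hM G _ _ e V γ hL i hiR hiV hiγ χ hχ κ hκ
  have := Fintype.ofFinite G
  have hab := hL.ab
  have hγ := hL.gam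
  have hF : GoodF ℓ (FF M) := H50.fld ℓ Fact.out M hM
  have hVX : V ≤ (Subgroup.centralizer (V : Set G)) := by
    intro v hv
    rw [Subgroup.mem_centralizer_iff]
    intro x hx
    exact hab x hx v hv
  have hVcard : Nat.card (V.subgroupOf (Subgroup.centralizer (V : Set G))) = Nat.card V :=
    Nat.card_congr (Subgroup.subgroupOfEquivOfLe hVX).toEquiv
  have := Fintype.ofFinite (Subgroup.centralizer (V : Set G))
  -- the first number
  have hz := H65.zet_cl (C := V) hiV
  have hzR : ∀ g, H65.zet V i g ∈ RM M := fun g => Subring.sum_mem _ fun q _ => hiR _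
  have k1 := H65.om_RM (M := M) hz hzR hχ.1
  rw [H65.zet_om hχ.1] at k1
  have htr : (fun g => rr M (H65.zet V i g)) = tsm V (rd M i) := by
    funext g
    unfold H65.zet tsm
    rw [rr_sum _ _ fun q _ => hiR _, finsum_eq_sum_of_fintype]
    exact sum_any _ _ _ _ fun q => rfl
  rw [htr] at k1
  -- the second number
  have hiV' : ∀ c ∈ V.subgroupOf (Subgroup.centralizer (V : Set G)), ∀ g : (Subgroup.centralizer (V : Set G)), i ((c * g * c⁻¹ : (Subgroup.centralizer (V : Set G))) : G) = i (g : G) := by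
    intro c hc g
    exact hiV c hc g
  have hz2 := H65.zet_cl (C := V.subgroupOf (Subgroup.centralizer (V : Set G))) (w := fun t : (Subgroup.centralizer (V : Set G)) => i (t : G)) hiV'
  have hzR2 : ∀ g, H65.zet (V.subgroupOf (Subgroup.centralizer (V : Set G))) (fun t : (Subgroup.centralizer (V : Set G)) => i (t : G)) g ∈ RM M := fun g =>
    Subring.sum_mem _ fun q _ => hiR _
  have k2 := H65.om_RM (M := M) hz2 hzR2 hκ.1
  rw [H65.zet_om hκ.1, hVcard] at k2
  have htr2 : (fun g => rr M (H65.zet (V.subgroupOf (Subgroup.centralizer (V : Set G))) (fun t : (Subgroup.centralizer (V : Set G)) => i (t : G)) g)) =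
      tsm (V.subgroupOf (Subgroup.centralizer (V : Set G))) (fun t : (Subgroup.centralizer (V : Set G)) => rd M i (t : G)) := by
    funext g
    unfold H65.zet tsm
    rw [rr_sum _ _ fun q _ => hiR _, finsum_eq_sum_of_fintype]
    exact sum_any _ _ _ _ fun q => rfl
  rw [htr2] at k2
  refine ⟨k1.1, k2.1, ?_⟩
  have k3 : rr M (Nat.card (Subgroup.centralizer (V : Set G)) * (∑ᶠ t : (Subgroup.centralizer (V : Set G)), i t * κ t) / (Nat.card V * κ 1)) =
      res M (tsm (V.subgroupOf (Subgroup.centralizer (V : Set G))) (fun t : (Subgroup.centralizer (V : Set G)) => rd M i (t : G))) κ := k2.2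
  rw [k1.2, k3]
  -- the central characters
  set a := rd M i with ha
  have haV : ∀ v ∈ V, cj v a = a := fun v hv =>
    (cj_eq_iff v a).2 fun x => congrArg (rr M) (hiV v hv x)
  have hzcl : IsCl (tsm V a) := tsm_cl haV
  have hlam1 := H50.isChar_res (M := M) hχ.1
  have hlamκ := H50.isChar_res (M := M) hκ.1
  set r : (G → FF M) → (Subgroup.centralizer (V : Set G)) → FF M := fun c x => br V c x with hr
  have hrX : ∀ (c : G → FF M) (x : (Subgroup.centralizer (V : Set G))), r c x = c x := fun c x => H66.br_of_mem x.2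
  have hrcl : ∀ c : G → FF M, IsCl c → IsCl (r c) := by
    intro c hc x y
    rw [hrX, hrX]
    exact hc x y
  have hrmul : ∀ (c : G → FF M) (c' : G → FF M), (fun x : (Subgroup.centralizer (V : Set G)) => mulF (br V c) c' x) =
      mulF (r c) (fun x : (Subgroup.centralizer (V : Set G)) => c' x) := fun c c' =>
    mulF_res (Subgroup.centralizer (V : Set G)) c' fun x hx => H66.br_of_not_mem hx
  have hlam2 : H50.IsChar (fun c : G → FF M => res M (r c) κ) := by
    constructor
    · intro c c' hc hc'
      have h1 : r (c - c') = r c - r c' := by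
        funext x
        rw [hrX, Pi.sub_apply, Pi.sub_apply, hrX, hrX]
      change res M (r (c - c')) κ = _
      rw [h1]
      exact hlamκ.sub _ _ (hrcl c hc) (hrcl c' hc')
    · intro z c hc
      have h1 : r (z • c) = z • r c := by
        funext x
        rw [hrX, Pi.smul_apply, Pi.smul_apply, hrX]
      change res M (r (z • c)) κ = _
      rw [h1]
      exact hlamκ.smul _ _ (hrcl c hc)
    · intro c c' hc hc'
      have h1 : r (mulF c c') = mulF (r c) (r c') := by
        have h2 := br_mulF H74.orb hF hL.tp.pg (a := c) (c := c')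
          (fun p _ => (cj_eq_iff p c).2 fun x => hc x p)
          (fun p _ => (cj_eq_iff p c').2 fun x => hc' x p)
        have h3 : r (mulF c c') = fun x : (Subgroup.centralizer (V : Set G)) => mulF (br V c) (br V c') x := by
          funext x
          rw [← h2]
        rw [h3, hrmul]
      change res M (r (mulF c c')) κ = _
      rw [h1]
      exact hlamκ.mul _ _ (hrcl c hc) (hrcl c' hc')
  have hγcl : IsCl (fun x : (Subgroup.centralizer (V : Set G)) => γ x) := hγ.blk.1.1
  have hγ1 : res M (fun x : (Subgroup.centralizer (V : Set G)) => γ x) κ = 1 := hκ.2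
  have hmulγ : ∀ c : (Subgroup.centralizer (V : Set G)) → FF M, IsCl c → res M (mulF c (fun x : (Subgroup.centralizer (V : Set G)) => γ x)) κ = res M c κ := by
    intro c hc
    have h1 := hlamκ.mul c _ hc hγcl
    rw [hγ1, mul_one] at h1
    exact h1
  have h2e : res M (r e) κ = 1 := by
    rw [← hmulγ _ (hrcl e hL.blk.1.1), ← hrmul]
    rw [hL.und]
    exact hγ1
  have huniq : res M (tsm V a) χ = res M (r (tsm V a)) κ :=
    H50.char_uniq hL.blk hlam1 hlam2 hχ.2 h2e hzcl
  -- the sum over the cosets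
  set Z : G → FF M := ∑ x : (Subgroup.centralizer (V : Set G)) ⧸ V.subgroupOf (Subgroup.centralizer (V : Set G)), cj ((x.out : (Subgroup.centralizer (V : Set G))) : G) (br V a) with hZ
  have hcore := core_om hF hL.tp.pg hab hγ haV hiγ
  have hXN : (Subgroup.centralizer (V : Set G)) ≤ Subgroup.normalizer (V : Set G) := by
    intro g hg
    apply norm_of_conj
    intro v hv
    have h1 := Subgroup.mem_centralizer_iff.1 hg v hv
    rw [mul_assoc, h1, inv_mul_cancel_left]
    exact hv
  have hXT : (Subgroup.centralizer (V : Set G)) ≤ Tg V γ := by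
    intro x hx
    exact ⟨hXN hx, (cj_eq_iff _ _).1 (hγ.ix.inv hx)⟩
  -- the restriction of `Z`
  have hZr : (fun x : (Subgroup.centralizer (V : Set G)) => Z x) = tsm (V.subgroupOf (Subgroup.centralizer (V : Set G))) (fun t : (Subgroup.centralizer (V : Set G)) => a (t : G)) := by
    funext g
    unfold tsm
    rw [hZ, Finset.sum_apply, finsum_eq_sum_of_fintype]
    refine Finset.sum_congr rfl fun x _ => ?_
    change br V a _ = a _
    have h1 : ((x.out : (Subgroup.centralizer (V : Set G))) : G)⁻¹ * g * ((x.out : (Subgroup.centralizer (V : Set G))) : G) ∈ (Subgroup.centralizer (V : Set G)) :=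
      (Subgroup.centralizer (V : Set G)).mul_mem ((Subgroup.centralizer (V : Set G)).mul_mem ((Subgroup.centralizer (V : Set G)).inv_mem x.out.2) g.2) x.out.2
    rw [H66.br_of_mem h1]
    rfl
  have hZcl : IsCl (fun x : (Subgroup.centralizer (V : Set G)) => Z x) := by
    rw [hZr]
    apply tsm_cl
    intro v hv
    refine (cj_eq_iff v _).2 fun x => ?_
    exact congrArg (rr M) (hiV v hv x)
  have hterm : ∀ t ∈ Tg V γ, IsCl (fun x : (Subgroup.centralizer (V : Set G)) => cj t Z x) ∧
      res M (fun x : (Subgroup.centralizer (V : Set G)) => cj t Z x) κ = res M (fun x : (Subgroup.centralizer (V : Set G)) => Z x) κ := by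
    intro t ht
    have ht1 : t⁻¹ ∈ Subgroup.normalizer (V : Set G) := inv_mem ht.1
    set φ := H34.cj V t⁻¹ ht1 with hφ
    have hφc : ∀ x : (Subgroup.centralizer (V : Set G)), ((φ x : (Subgroup.centralizer (V : Set G))) : G) = t⁻¹ * x * t := by
      intro x
      rw [hφ, H34.cj_coe, inv_inv]
    have h1 : ∀ c : G → FF M, (fun x : (Subgroup.centralizer (V : Set G)) => cj t c x) = fun x : (Subgroup.centralizer (V : Set G)) => (fun y : (Subgroup.centralizer (V : Set G)) => c y) (φ x) := by
      intro c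
      funext x
      change c (t⁻¹ * x * t) = c (φ x : (Subgroup.centralizer (V : Set G)))
      rw [hφc]
    constructor
    · rw [h1]
      exact H34.isCl_comp φ hZcl
    · have hlam3 := H34.isChar_comp φ hlamκ
      have h2 : res M (fun x : (Subgroup.centralizer (V : Set G)) => (fun y : (Subgroup.centralizer (V : Set G)) => γ y) (φ x)) κ = 1 := by
        rw [← h1, (cj_eq_iff t γ).2 ht.2]
        exact hγ1
      have h3 := H50.char_uniq hγ.blk hlam3 hlamκ h2 hγ1 hZcl
      rw [h1]
      exact h3
  have hcard : (Finset.univ.filter fun p : G ⧸ (Subgroup.centralizer (V : Set G)) => p.out ∈ Tg V γ).card = ix V γ := by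
    unfold ix
    rw [← orbit_card, ← Set.ncard_coe_finset]
    congr 1
    ext p
    rw [Finset.mem_coe, Finset.mem_filter, MulAction.mem_orbit_iff]
    constructor
    · rintro ⟨-, hp⟩
      refine ⟨⟨p.out, hp⟩, ?_⟩
      change ((p.out * 1 : G) : G ⧸ (Subgroup.centralizer (V : Set G))) = p
      rw [mul_one]
      exact QuotientGroup.out_eq' p
    · rintro ⟨⟨t, ht⟩, rfl⟩
      refine ⟨Finset.mem_univ _, ?_⟩
      have h1 : ((⟨t, ht⟩ : Tg V γ) • ((1 : G) : G ⧸ (Subgroup.centralizer (V : Set G)))) = ((t : G) : G ⧸ (Subgroup.centralizer (V : Set G))) := by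
        change ((t * 1 : G) : G ⧸ (Subgroup.centralizer (V : Set G))) = _
        rw [mul_one]
      rw [h1]
      obtain ⟨x, hx⟩ := QuotientGroup.mk_out_eq_mul (Subgroup.centralizer (V : Set G)) t
      rw [hx]
      exact (Tg V γ).mul_mem ht (hXT x.2)
  have hfin : res M (r (tsm V a)) κ = (ix V γ : FF M) * res M (fun x : (Subgroup.centralizer (V : Set G)) => Z x) κ := by
    rw [← hmulγ _ (hrcl _ hzcl), ← hrmul, hcore]
    have h1 : (fun x : (Subgroup.centralizer (V : Set G)) => (∑ p : G ⧸ (Subgroup.centralizer (V : Set G)), if p.out ∈ Tg V γ then cj p.out Z else 0 : G → FF M) x) =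
        ∑ p ∈ Finset.univ.filter (fun p : G ⧸ (Subgroup.centralizer (V : Set G)) => p.out ∈ Tg V γ),
          (fun x : (Subgroup.centralizer (V : Set G)) => cj p.out Z x) := by
      funext x
      rw [← Finset.sum_filter, Finset.sum_apply, Finset.sum_apply]
    rw [h1, (isChar_sum hlamκ _ _ fun p hp => (hterm _ (Finset.mem_filter.1 hp).2).1).2,
      Finset.sum_congr rfl fun p hp => (hterm _ (Finset.mem_filter.1 hp).2).2, Finset.sum_const,
      hcard, nsmul_eq_mul]
  rw [huniq, hfin, hZr]

end Pool.Agent.PP.T8.H17
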